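import Pool.Agent.Helper40.Ct.Goals

/-!
Packet EVAL1 of MP_034a88_co.
-/

set_option autoImplicit false

open Finset

namespace Pool.Agent.Helper83.Ct

open Pool.Agent.Helper40.Ct

theorem sg_mul_self {d r : ℕ} (π : Fac d r) : sg π * sg π = 1 := by
  unfold sg
  rw [← Finset.prod_mul_distrib]
  apply Finset.prod_eq_one
  intro i _
  rw [← Units.val_mul, Int.units_mul_self]
  rfl

theorem length_elList (d r : ℕ) : (elList d r).length = (d + 1) * r + 1 := by
  unfold elList colList
  simp [List.length_flatMap]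

/-- weights indexed by the index set -/
theorem weights {d : ℕ} {n : ℕ} (h : Fin n → (Fin d → ℝ)) (A : Finset (Fin n))
    (h0 : (0 : Fin d → ℝ) ∈ convexHull ℝ (h '' (A : Set (Fin n)))) :
    ∃ a : Fin n → ℝ, (∀ s, s ∉ A → a s = 0) ∧ ∑ s, a s = 1 ∧ ∑ s, a s • h s = 0 := by
  classical
  rw [mem_convexHull_iff_exists_fintype] at h0
  obtain ⟨ι, _, w, z, _, hw1, hz, hs⟩ := h0
  choose f hfA hf using hz
  refine ⟨fun s => ∑ i ∈ univ.filter (fun i => f i = s), w i, ?_, ?_, ?_⟩
  · intro s hsA
    apply Finset.sum_eq_zero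
    intro i hi
    rw [Finset.mem_filter] at hi
    exact absurd (by rw [← hi.2]; exact hfA i) hsA
  · rw [← hw1]
    exact Finset.sum_fiberwise_of_maps_to (s := univ) (t := univ) (g := f)
      (fun i _ => Finset.mem_univ (f i)) w
  · rw [← hs, ← Finset.sum_fiberwise_of_maps_to (s := univ) (t := univ) (g := f)
      (fun i _ => Finset.mem_univ (f i)) (fun i => w i • z i)]
    apply Finset.sum_congr rfl
    intro s _
    rw [Finset.sum_smul]
    apply Finset.sum_congr rfl
    intro i hi
    rw [Finset.mem_filter] at hi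
    rw [← hi.2, hf i]

theorem eval1 : EV1 → EV1a → EV2 → EV3 → EVAL1 := by
  classical
  intro h1 h1a h2 h3 d r α u g x hr hx hu hc hind
  obtain ⟨c, hc0, hc1, hcg⟩ := hc
  have hne : List.ofFn x ≠ [] := by
    intro h
    have := congrArg List.length h
    simp at this
  have hnd : (List.ofFn x).Nodup := List.nodup_ofFn.mpr hx
  have hlen : (elList d r).length = (List.ofFn x).length * r + 1 := by
    rw [length_elList, List.length_ofFn]
  obtain ⟨ε₁, hε₁, hE1⟩ := h1 α (El d r) r (elList d r) (List.ofFn x) hne hnd hlen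
  obtain ⟨ε₂, hε₂, hE2⟩ := h2 d r α u g x hr hx hu ⟨c, hc0, hc1, hcg⟩ hind
  have hA : ∀ A : Finset (Fin (d + 1)), A ≠ univ →
      (0 : Fin d → ℝ) ∉ convexHull ℝ ((fun s => g (x s)) '' (A : Set (Fin (d + 1)))) := by
    intro A hAu h0
    obtain ⟨a, ha0, ha1, hag⟩ := weights (fun s => g (x s)) A h0
    have hz : (fun s => a s - c s) = 0 := by
      apply hind
      · rw [Finset.sum_sub_distrib, ha1, hc1, sub_self]
      · simp only [sub_smul]
        rw [Finset.sum_sub_distrib, hag, hcg, sub_self]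
    apply hAu
    rw [Finset.eq_univ_iff_forall]
    intro s
    by_contra hs
    have h4 := congrFun hz s
    simp only [Pi.zero_apply, ha0 s hs] at h4
    have := hc0 s
    linarith
  have hPf : ∀ π : Fac d r, Pf (elList d r) (fpi u π) (List.ofFn x) =
      ε₁ * fpi u π (blk r (elList d r) (List.ofFn x)) := by
    intro π
    apply hE1
    intro l hl hl0 y hy
    have hl' : ∀ q ∈ l, ∃ s, q.1 = x s := by
      intro q hq
      have := hl q hq
      rw [List.mem_ofFn] at this
      obtain ⟨s, hs⟩ := this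
      exact ⟨s, hs.symm⟩
    rw [List.mem_ofFn] at hy
    obtain ⟨s, rfl⟩ := hy
    exact h1a d r α u g x hx hu hA π l hl' hl0 s
  have hterm : ∀ π : Fac d r, sg π * Pf (elList d r) (fpi u π) (List.ofFn x) =
      if Valid π then ε₁ * ε₂ else 0 := by
    intro π
    rw [hPf]
    by_cases hV : Valid π
    · rw [if_pos hV, (hE2 π).1 hV]
      have := sg_mul_self π
      calc sg π * (ε₁ * (ε₂ * sg π)) = ε₁ * ε₂ * (sg π * sg π) := by ring
        _ = ε₁ * ε₂ := by rw [this, mul_one]
    · rw [if_neg hV, (hE2 π).2 hV, mul_zero, mul_zero]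
  refine ⟨ε₁ * ε₂, ?_, ?_⟩
  · rcases hε₁ with h | h <;> rcases hε₂ with h' | h' <;> rw [h, h'] <;> simp
  · unfold cc
    rw [Finset.sum_congr rfl fun π _ => hterm π, ← Finset.sum_filter, Finset.sum_const,
      nsmul_eq_mul, mul_comm]
    congr 1
    have h5 := h3 d r hr
    rw [Nat.card_eq_fintype_card, Fintype.card_subtype] at h5
    rw [h5]
    push_cast
    rfl

end Pool.Agent.Helper83.Ct
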